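import Pool.Agent.Q33.Zeta.Expand

/-! `∑ H_{k-1} z^k/k + ∑ (1-z)^k/k^2 ≡ 0 (mod p)` -/

namespace Pool.Agent.Q33.Zeta

open Finset Q33.Harm Polynomial

variable {p : ℕ} [hp : Fact p.Prime]

/-- a polynomial of degree `< p` with zero derivative is constant -/
theorem const_of_derivative {P : (ZMod p)[X]} (h : derivative P = 0) (hd : P.natDegree < p) : P = C (P.coeff 0) := by
  ext n
  rcases n with _ | n
  · simp
  · rw [coeff_C, if_neg (Nat.succ_ne_zero n)]
    by_cases hn : n + 1 < p
    · have h1 := coeff_derivative P n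
      rw [h, coeff_zero] at h1
      have h2 : ((n : ZMod p) + 1) ≠ 0 := by
        intro h0
        have h3 : ((n + 1 : ℕ) : ZMod p) = 0 := by push_cast; exact h0
        rw [ZMod.natCast_eq_zero_iff] at h3
        exact absurd (Nat.le_of_dvd (Nat.succ_pos n) h3) (by omega)
      exact (mul_eq_zero.1 h1.symm).resolve_right h2
    · exact coeff_eq_zero_of_natDegree_lt (by omega)

variable (p) in
/-- `∑ X^(i+1)/(i+1)` -/
noncomputable def l1 : (ZMod p)[X] := ∑ i ∈ range (p - 1), C (((i : ZMod p) + 1)⁻¹) * X ^ (i + 1)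

theorem ne (i : ℕ) (hi : i < p - 1) : ((i : ZMod p) + 1) ≠ 0 := by
  intro h0
  have h3 : ((i + 1 : ℕ) : ZMod p) = 0 := by push_cast; exact h0
  rw [ZMod.natCast_eq_zero_iff] at h3
  exact absurd (Nat.le_of_dvd (Nat.succ_pos i) h3) (by omega)

theorem der_one_sub_pow (n : ℕ) : derivative ((1 - X : (ZMod p)[X]) ^ (n + 1)) = -(C ((n : ZMod p) + 1) * (1 - X) ^ n) := by
  rw [derivative_pow_succ]
  have h2 : derivative (1 - X : (ZMod p)[X]) = -1 := by simp
  rw [h2]
  ring

theorem der_l1 : derivative (l1 p) = ∑ i ∈ range (p - 1), X ^ i := by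
  unfold l1
  rw [derivative_sum]
  refine sum_congr rfl fun i hi => ?_
  rw [mem_range] at hi
  rw [derivative_C_mul_X_pow, Nat.add_sub_cancel]
  have : (((i : ZMod p) + 1)⁻¹ * ((i + 1 : ℕ) : ZMod p)) = 1 := by
    push_cast
    exact inv_mul_cancel₀ (ne i hi)
  rw [this, map_one, one_mul]

/-- `l1 (1 - X)` -/
noncomputable def l1' (p : ℕ) [Fact p.Prime] : (ZMod p)[X] :=
  ∑ i ∈ range (p - 1), C (((i : ZMod p) + 1)⁻¹) * (1 - X) ^ (i + 1)

theorem der_l1' : derivative (l1' p) = -∑ i ∈ range (p - 1), (1 - X) ^ i := by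
  unfold l1'
  rw [derivative_sum, ← sum_neg_distrib]
  refine sum_congr rfl fun i hi => ?_
  rw [mem_range] at hi
  rw [derivative_C_mul, der_one_sub_pow]
  have : (C (((i : ZMod p) + 1)⁻¹) * C ((i : ZMod p) + 1) : (ZMod p)[X]) = 1 := by
    rw [← map_mul, inv_mul_cancel₀ (ne i hi), map_one]
  linear_combination (-(1 - X) ^ i) * this

theorem nd1 (n : ℕ) : ((1 - X : (ZMod p)[X]) ^ n).natDegree ≤ n := by
  refine natDegree_pow_le.trans ?_
  have : (1 - X : (ZMod p)[X]).natDegree ≤ 1 := by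
    refine (natDegree_sub_le _ _).trans ?_
    rw [natDegree_one, natDegree_X]
    simp
  nlinarith

theorem l1_sum_one (h2 : p ≠ 2) : ∑ i ∈ range (p - 1), ((i : ZMod p) + 1)⁻¹ = 0 := by
  have h1 : ∑ i ∈ range (p - 1), ((i : ZMod p) + 1)⁻¹ = -∑ i ∈ range (p - 1), ((i : ZMod p) + 1)⁻¹ := by
    conv_lhs => rw [← sum_range_reflect]
    rw [← sum_neg_distrib]
    refine sum_congr rfl fun i hi => ?_
    rw [mem_range] at hi
    have h3 : ((p - 1 - 1 - i : ℕ) : ZMod p) + 1 = -((i : ZMod p) + 1) := by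
      have h4 : ((p - 1 - 1 - i : ℕ) : ZMod p) + 1 + (i + 1) = ((p : ℕ) : ZMod p) := by
        have : p - 1 - 1 - i + 1 + (i + 1) = p := by omega
        exact_mod_cast congrArg (fun n : ℕ => (n : ZMod p)) this
      rw [CharP.cast_eq_zero (ZMod p) p] at h4
      linear_combination h4
    rw [h3, inv_neg]
  have h5 : 2 * ∑ i ∈ range (p - 1), ((i : ZMod p) + 1)⁻¹ = 0 := by linear_combination h1
  have h2' : (2 : ZMod p) ≠ 0 := by
    intro h
    have h' : ((2 : ℕ) : ZMod p) = 0 := by exact_mod_cast h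
    rw [ZMod.natCast_eq_zero_iff] at h'
    exact h2 ((Nat.prime_dvd_prime_iff_eq hp.out Nat.prime_two).1 h')
  exact (mul_eq_zero.1 h5).resolve_left h2'

theorem geom (n : ℕ) (Z : (ZMod p)[X]) : (1 - Z) * ∑ i ∈ range n, Z ^ i = 1 - Z ^ n := mul_neg_geom_sum Z n

theorem l1_symm (h2 : p ≠ 2) : l1' p = l1 p := by
  have hpos := hp.out.pos
  have hder : derivative (l1' p - l1 p) = 0 := by
    rw [derivative_sub, der_l1, der_l1']
    have g1 := geom (p := p) (p - 1) X
    have g2 := geom (p := p) (p - 1) (1 - X)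
    rw [sub_sub_cancel] at g2
    have e1 : (1 - X : (ZMod p)[X]) ^ (p - 1) * (1 - X) = 1 - X ^ p := by
      rw [← pow_succ, show p - 1 + 1 = p by omega, sub_pow_char, one_pow]
    have e2 : (X : (ZMod p)[X]) ^ (p - 1) * X = X ^ p := by
      rw [← pow_succ, show p - 1 + 1 = p by omega]
    have hne : (X * (1 - X) : (ZMod p)[X]) ≠ 0 := by
      refine mul_ne_zero X_ne_zero ?_
      intro h
      have := congrArg (eval 0) h
      simp at this
    apply mul_left_cancel₀ hne
    linear_combination (-(1 - X : (ZMod p)[X])) * g2 - X * g1 + e1 + e2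
  have hdeg : (l1' p - l1 p).natDegree < p := by
    refine lt_of_le_of_lt (natDegree_sub_le _ _) (max_lt ?_ ?_)
    · unfold l1'
      refine lt_of_le_of_lt (natDegree_sum_le_of_forall_le (n := p - 1) _ _ fun i hi => ?_) (by omega)
      rw [mem_range] at hi
      exact (natDegree_C_mul_le _ _).trans ((nd1 _).trans (by omega))
    · unfold l1
      refine lt_of_le_of_lt (natDegree_sum_le_of_forall_le (n := p - 1) _ _ fun i hi => ?_) (by omega)
      rw [mem_range] at hi
      exact (natDegree_C_mul_X_pow_le _ _).trans (by omega)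
  have h3 := const_of_derivative hder hdeg
  have h4 : (l1' p - l1 p).coeff 0 = 0 := by
    rw [coeff_zero_eq_eval_zero, eval_sub]
    unfold l1' l1
    rw [eval_finsetSum, eval_finsetSum]
    have e1 : ∑ i ∈ range (p - 1), eval 0 (C (((i : ZMod p) + 1)⁻¹) * (1 - X) ^ (i + 1)) = 0 := by
      have e0 : ∑ i ∈ range (p - 1), eval 0 (C (((i : ZMod p) + 1)⁻¹) * (1 - X) ^ (i + 1))
          = ∑ i ∈ range (p - 1), ((i : ZMod p) + 1)⁻¹ := by
        refine sum_congr rfl fun i _ => ?_
        simp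
      rw [e0, l1_sum_one h2]
    have e2 : ∑ i ∈ range (p - 1), eval 0 (C (((i : ZMod p) + 1)⁻¹) * X ^ (i + 1)) = 0 := by
      apply sum_eq_zero
      intro i _
      simp
    rw [e1, e2, sub_zero]
  rw [h4, map_zero] at h3
  exact sub_eq_zero.1 h3

variable (p) in
/-- `H_i` modulo `p` -/
noncomputable def hm (k : ℕ) : ZMod p := ∑ i ∈ range k, ((i : ZMod p) + 1)⁻¹

variable (p) in
/-- `∑ H_i X^(i+1)/(i+1)` -/
noncomputable def yp : (ZMod p)[X] := ∑ i ∈ range (p - 1), C (((i : ZMod p) + 1)⁻¹ * hm p i) * X ^ (i + 1)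

variable (p) in
/-- `∑ (1-X)^(i+1)/(i+1)^2` -/
noncomputable def d2 : (ZMod p)[X] := ∑ i ∈ range (p - 1), C ((((i : ZMod p) + 1)⁻¹) ^ 2) * (1 - X) ^ (i + 1)

theorem yp_aux (n : ℕ) : (1 - X : (ZMod p)[X]) * ∑ i ∈ range n, C (hm p i) * X ^ i
    = ∑ i ∈ range n, C (((i : ZMod p) + 1)⁻¹) * X ^ (i + 1) - C (hm p n) * X ^ n := by
  induction n with
  | zero => simp [hm]
  | succ n ih =>
    rw [sum_range_succ, mul_add, ih, sum_range_succ]
    have : hm p (n + 1) = hm p n + ((n : ZMod p) + 1)⁻¹ := by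
      unfold hm
      rw [sum_range_succ]
    rw [this, map_add, pow_succ]
    ring

theorem dilog_poly (h2 : p ≠ 2) (h3 : p ≠ 3) : yp p + d2 p = 0 := by
  have hpos := hp.out.pos
  have hder : derivative (yp p + d2 p) = 0 := by
    rw [derivative_add]
    have e1 : derivative (yp p) = ∑ i ∈ range (p - 1), C (hm p i) * X ^ i := by
      unfold yp
      rw [derivative_sum]
      refine sum_congr rfl fun i hi => ?_
      rw [mem_range] at hi
      rw [derivative_C_mul_X_pow, Nat.add_sub_cancel]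
      have := ne (p := p) i hi
      congr 2
      push_cast
      field_simp
    have e2 : derivative (d2 p) = -∑ i ∈ range (p - 1), C (((i : ZMod p) + 1)⁻¹) * (1 - X) ^ i := by
      unfold d2
      rw [derivative_sum, ← sum_neg_distrib]
      refine sum_congr rfl fun i hi => ?_
      rw [mem_range] at hi
      rw [derivative_C_mul, der_one_sub_pow]
      have h4 : (((i : ZMod p) + 1)⁻¹) ^ 2 * ((i : ZMod p) + 1) = ((i : ZMod p) + 1)⁻¹ := by
        have := ne (p := p) i hi
        field_simp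
      have h5 : (C ((((i : ZMod p) + 1)⁻¹) ^ 2) * C ((i : ZMod p) + 1) : (ZMod p)[X]) = C (((i : ZMod p) + 1)⁻¹) := by
        rw [← map_mul, h4]
      linear_combination (-(1 - X) ^ i) * h5
    rw [e1, e2]
    have hne : (1 - X : (ZMod p)[X]) ≠ 0 := by
      intro h
      have := congrArg (eval 0) h
      simp at this
    apply mul_left_cancel₀ hne
    have h6 := yp_aux (p := p) (p - 1)
    have h7 : hm p (p - 1) = 0 := l1_sum_one h2
    rw [h7, map_zero, zero_mul, sub_zero] at h6
    have h8 : (1 - X : (ZMod p)[X]) * ∑ i ∈ range (p - 1), C (((i : ZMod p) + 1)⁻¹) * (1 - X) ^ i = l1' p := by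
      unfold l1'
      rw [mul_sum]
      refine sum_congr rfl fun i _ => ?_
      rw [pow_succ]
      ring
    have h9 := l1_symm (p := p) h2
    have h10 : ∑ i ∈ range (p - 1), C (((i : ZMod p) + 1)⁻¹) * (X : (ZMod p)[X]) ^ (i + 1) = l1 p := rfl
    rw [h10] at h6
    rw [mul_add, h6, mul_neg, h8, h9, add_neg_cancel, mul_zero]
  have hdeg : (yp p + d2 p).natDegree < p := by
    refine lt_of_le_of_lt (natDegree_add_le _ _) (max_lt ?_ ?_)
    · unfold yp
      refine lt_of_le_of_lt (natDegree_sum_le_of_forall_le (n := p - 1) _ _ fun i hi => ?_) (by omega)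
      rw [mem_range] at hi
      exact (natDegree_C_mul_X_pow_le _ _).trans (by omega)
    · unfold d2
      refine lt_of_le_of_lt (natDegree_sum_le_of_forall_le (n := p - 1) _ _ fun i hi => ?_) (by omega)
      rw [mem_range] at hi
      exact (natDegree_C_mul_le _ _).trans ((nd1 _).trans (by omega))
  have h4 := const_of_derivative hder hdeg
  have h5 : (yp p + d2 p).coeff 0 = 0 := by
    rw [coeff_zero_eq_eval_zero, eval_add]
    unfold yp d2
    rw [eval_finsetSum, eval_finsetSum]
    have e1 : ∑ i ∈ range (p - 1), eval 0 (C (((i : ZMod p) + 1)⁻¹ * hm p i) * X ^ (i + 1)) = 0 := by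
      apply sum_eq_zero
      intro i _
      simp
    have e2 : ∑ i ∈ range (p - 1), eval 0 (C ((((i : ZMod p) + 1)⁻¹) ^ 2) * (1 - X) ^ (i + 1))
        = ∑ i ∈ range (p - 1), (((i : ZMod p) + 1)⁻¹) ^ 2 := by
      refine sum_congr rfl fun i _ => ?_
      simp
    rw [e1, e2, zero_add]
    -- sum of inverse squares
    have hV := dvd_V (p := p) (s := 2) (by
      intro hd
      have := Nat.le_of_dvd two_pos hd
      have h2le := hp.out.two_le
      have : p = 2 ∨ p = 3 := by omega
      rcases this with h | h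
      · exact h2 h
      · exact h3 h)
    rw [dvd_iff_toZMod] at hV
    unfold V at hV
    rw [map_sum] at hV
    rw [← hV, sum_Ico_eq_sum_range]
    refine sum_congr rfl fun i hi => ?_
    rw [mem_range] at hi
    rw [map_pow, toZMod_v (not_dvd_of_lt (by omega) (by omega))]
    push_cast
    rw [add_comm (1 : ZMod p)]
  rw [h5, map_zero] at h4
  exact h4

section alg
variable {R : Type*} [CommRing R] (ι : ℤ_[p] →+* R)

theorem dilog (h2 : p ≠ 2) (h3 : p ≠ 3) (z : R) : (p : R) ∣ Y ι z + L2 ι (1 - z) := by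
  set Q : ℤ_[p][X] := ∑ k ∈ Ico 1 p, (C (v p k * h p k) * X ^ k + C (v p k ^ 2) * (1 - X) ^ k) with hQ
  have hmap : Q.map PadicInt.toZMod = 0 := by
    rw [← dilog_poly (p := p) h2 h3]
    unfold yp d2
    rw [hQ, Polynomial.map_sum, ← sum_add_distrib, sum_Ico_eq_sum_range]
    refine sum_congr rfl fun i hi => ?_
    rw [mem_range] at hi
    have e1 : PadicInt.toZMod (v p (1 + i)) = ((i : ZMod p) + 1)⁻¹ := by
      rw [toZMod_v (not_dvd_of_lt (by omega) (by omega))]
      push_cast
      rw [add_comm]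
    have e2 : PadicInt.toZMod (h p (1 + i)) = hm p i := by
      unfold h hm
      rw [map_sum, sum_Ico_eq_sum_range, Nat.add_sub_cancel_left]
      refine sum_congr rfl fun j hj => ?_
      rw [mem_range] at hj
      rw [toZMod_v (not_dvd_of_lt (by omega) (by omega))]
      push_cast
      rw [add_comm]
    simp only [Polynomial.map_add, Polynomial.map_mul, Polynomial.map_pow, Polynomial.map_sub, Polynomial.map_one,
      map_C, map_X, map_mul, map_pow, e1, e2]
    rw [add_comm 1 i]
  have hd : C (p : ℤ_[p]) ∣ Q := by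
    rw [C_dvd_iff_dvd_coeff]
    intro n
    rw [dvd_iff_toZMod]
    have := congrArg (fun P : (ZMod p)[X] => P.coeff n) hmap
    simp only [coeff_map, coeff_zero] at this
    exact this
  obtain ⟨Q', hQ'⟩ := hd
  have he : eval₂ ι z Q = Y ι z + L2 ι (1 - z) := by
    rw [hQ, eval₂_finsetSum]
    unfold Y L2
    rw [← sum_add_distrib]
    refine sum_congr rfl fun k _ => ?_
    simp only [eval₂_add, eval₂_mul, eval₂_C, eval₂_pow, eval₂_X, eval₂_sub, eval₂_one]
  rw [← he, hQ', eval₂_mul, eval₂_C, map_natCast]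
  exact Dvd.intro _ rfl

end alg

end Pool.Agent.Q33.Zeta
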