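import Pool.Agent.Q33.Harm.Choose

/-! Expansions of sums of binomial coefficients modulo `p^3` at an element of a `ℤ_[p]`-algebra. -/

namespace Pool.Agent.Q33.Zeta

open Finset Q33.Harm

variable {p : ℕ} [hp : Fact p.Prime]

/-- `H_{k-1}` in `ℤ_[p]` -/
noncomputable def h (p : ℕ) [Fact p.Prime] (k : ℕ) : ℤ_[p] := ∑ i ∈ Ico 1 k, v p i

theorem A_mod (k : ℕ) : (p : ℤ_[p]) ^ 2 ∣ A p k - (1 - p * h p k) := by
  induction k with
  | zero => simp [A, h]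
  | succ k ih =>
    rcases Nat.eq_zero_or_pos k with rfl | hk
    · simp [A, h]
    · obtain ⟨c, hc⟩ := ih
      rw [A_succ hk]
      have : h p (k + 1) = h p k + v p k := by
        unfold h
        rw [sum_Ico_succ_top hk]
      rw [this]
      refine ⟨c * (1 - p * v p k) + v p k * h p k, ?_⟩
      linear_combination (1 - p * v p k) * hc

theorem choose_p_mod {k : ℕ} (hk : k ∈ Ico 1 p) :
    (p : ℤ_[p]) ^ 3 ∣ ((p.choose k : ℕ) : ℤ_[p]) * (-1) ^ k - (-(p * v p k) + p ^ 2 * (v p k * h p k)) := by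
  obtain ⟨c, hc⟩ := A_mod (p := p) k
  rw [choose_p hk]
  rw [mem_Ico] at hk
  have e : (-1 : ℤ_[p]) ^ k = (-1) ^ (k - 1) * (-1) := by
    rw [← pow_succ]
    congr 1
    omega
  have e2 : (-1 : ℤ_[p]) ^ (k - 1) * (-1) ^ (k - 1) = 1 := by
    rw [← mul_pow]
    norm_num
  refine ⟨-(v p k * c), ?_⟩
  rw [e]
  linear_combination (-(p * v p k * A p k)) * e2 - p * v p k * hc

theorem choose_p_sq_mod {k : ℕ} (hk : k ∈ Ico 1 p) :
    (p : ℤ_[p]) ^ 3 ∣ ((p.choose k : ℕ) : ℤ_[p]) ^ 2 - p ^ 2 * v p k ^ 2 := by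
  obtain ⟨c, hc⟩ := A_mod (p := p) k
  rw [choose_p hk]
  have e2 : ((-1 : ℤ_[p]) ^ (k - 1)) ^ 2 = 1 := by
    rw [← pow_mul, mul_comm, pow_mul]
    norm_num
  have hA : A p k = 1 - p * h p k + p ^ 2 * c := by linear_combination hc
  refine ⟨v p k ^ 2 * (-h p k + p * c) * (A p k + 1), ?_⟩
  rw [mul_pow, mul_pow, mul_pow, e2]
  linear_combination p ^ 2 * v p k ^ 2 * (A p k + 1) * hA

theorem choose_pred_sq_mod {k : ℕ} (hk : k ∈ Ico 1 p) :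
    (p : ℤ_[p]) ^ 3 ∣ (((p - 1).choose k : ℕ) : ℤ_[p]) ^ 2 - (((p - 1).choose (k - 1) : ℕ) : ℤ_[p]) ^ 2
      - (-(2 * (p * v p k)) + p ^ 2 * v p k ^ 2 + 4 * (p ^ 2 * (v p k * h p k))) := by
  obtain ⟨c, hc⟩ := A_mod (p := p) k
  rw [mem_Ico] at hk
  have h1 := choose_pred (p := p) k hk.2
  have h2 := choose_pred (p := p) (k - 1) (by omega)
  rw [show k - 1 + 1 = k by omega] at h2
  rw [h1, h2, A_succ hk.1, mul_pow, mul_pow, mul_pow]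
  have e1 : ((-1 : ℤ_[p]) ^ k) ^ 2 = 1 := by
    rw [← pow_mul, mul_comm, pow_mul]
    norm_num
  have e2 : ((-1 : ℤ_[p]) ^ (k - 1)) ^ 2 = 1 := by
    rw [← pow_mul, mul_comm, pow_mul]
    norm_num
  rw [e1, e2]
  have hA : A p k = 1 - p * h p k + p ^ 2 * c := by linear_combination hc
  rw [hA]
  refine ⟨(-(2 * v p k) + p * v p k ^ 2) * (h p k ^ 2 + 2 * c - 2 * p * h p k * c + p ^ 2 * c ^ 2)
    - 2 * v p k ^ 2 * h p k, ?_⟩
  ring

section alg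
variable {R : Type*} [CommRing R] (ι : ℤ_[p] →+* R)

/-- `∑ ζ^k/k` -/
noncomputable def L1 (z : R) : R := ∑ k ∈ Ico 1 p, ι (v p k) * z ^ k

/-- `∑ ζ^k/k^2` -/
noncomputable def L2 (z : R) : R := ∑ k ∈ Ico 1 p, ι (v p k ^ 2) * z ^ k

/-- `∑ H_{k-1} ζ^k/k` -/
noncomputable def Y (z : R) : R := ∑ k ∈ Ico 1 p, ι (v p k * h p k) * z ^ k

omit hp in
theorem sum_range_p {f : ℕ → R} (hp0 : 1 < p) : ∑ k ∈ range (p + 1), f k = f 0 + ∑ k ∈ Ico 1 p, f k + f p := by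
  rw [sum_range_succ, ← Finset.sum_range_add_sum_Ico f hp0.le, sum_range_one]

theorem one_sub_pow_mod (h2 : p ≠ 2) (z : R) :
    (p : R) ^ 3 ∣ (1 - z) ^ p - (1 - z ^ p - p * L1 ι z + p ^ 2 * Y ι z) := by
  have hodd : Odd p := hp.out.odd_of_ne_two h2
  have h1 : (1 - z) ^ p = ∑ k ∈ range (p + 1), ι (((p.choose k : ℕ) : ℤ_[p]) * (-1) ^ k) * z ^ k := by
    rw [show (1 - z) = -z + 1 by ring, add_pow]
    refine sum_congr rfl fun k _ => ?_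
    rw [map_mul, map_natCast, map_pow, map_neg, map_one, one_pow, neg_pow]
    ring
  rw [h1, sum_range_p hp.out.one_lt]
  have h3 : 1 - z ^ p - p * L1 ι z + p ^ 2 * Y ι z
      = 1 + ∑ k ∈ Ico 1 p, ι (-(p * v p k) + p ^ 2 * (v p k * h p k)) * z ^ k - z ^ p := by
    unfold L1 Y
    rw [mul_sum, mul_sum]
    have : ∑ k ∈ Ico 1 p, ι (-(p * v p k) + p ^ 2 * (v p k * h p k)) * z ^ k
        = -∑ k ∈ Ico 1 p, (p : R) * (ι (v p k) * z ^ k) + ∑ k ∈ Ico 1 p, (p : R) ^ 2 * (ι (v p k * h p k) * z ^ k) := by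
      rw [← sum_neg_distrib, ← sum_add_distrib]
      refine sum_congr rfl fun k _ => ?_
      simp only [map_add, map_neg, map_mul, map_pow, map_natCast]
      ring
    rw [this]
    ring
  rw [h3]
  have h4 : ι (((p.choose 0 : ℕ) : ℤ_[p]) * (-1) ^ 0) * z ^ 0 = 1 := by simp
  have h5 : ι (((p.choose p : ℕ) : ℤ_[p]) * (-1) ^ p) * z ^ p = -z ^ p := by
    rw [Nat.choose_self, hodd.neg_one_pow]
    simp
  rw [h4, h5]
  have h6 : (1 + ∑ k ∈ Ico 1 p, ι (((p.choose k : ℕ) : ℤ_[p]) * (-1) ^ k) * z ^ k + -z ^ p)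
      - (1 + ∑ k ∈ Ico 1 p, ι (-(p * v p k) + p ^ 2 * (v p k * h p k)) * z ^ k - z ^ p)
      = ∑ k ∈ Ico 1 p, ι (((p.choose k : ℕ) : ℤ_[p]) * (-1) ^ k - (-(p * v p k) + p ^ 2 * (v p k * h p k))) * z ^ k := by
    have : ∑ k ∈ Ico 1 p, ι (((p.choose k : ℕ) : ℤ_[p]) * (-1) ^ k - (-(p * v p k) + p ^ 2 * (v p k * h p k))) * z ^ k
        = ∑ k ∈ Ico 1 p, ι (((p.choose k : ℕ) : ℤ_[p]) * (-1) ^ k) * z ^ k
          - ∑ k ∈ Ico 1 p, ι (-(p * v p k) + p ^ 2 * (v p k * h p k)) * z ^ k := by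
      rw [← sum_sub_distrib]
      refine sum_congr rfl fun k _ => ?_
      rw [map_sub, sub_mul]
    rw [this]
    ring
  rw [h6]
  apply dvd_sum
  intro k hk
  obtain ⟨c, hc⟩ := choose_p_mod hk
  rw [hc]
  exact ⟨ι c * z ^ k, by simp only [map_mul, map_pow, map_natCast]; ring⟩

theorem sum_sq_mod (z : R) :
    (p : R) ^ 3 ∣ ∑ k ∈ range (p + 1), ((p.choose k : ℕ) : R) ^ 2 * z ^ k - (1 + z ^ p + p ^ 2 * L2 ι z) := by
  rw [sum_range_p hp.out.one_lt]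
  have h3 : (((p.choose 0 : ℕ) : R) ^ 2 * z ^ 0 + ∑ k ∈ Ico 1 p, ((p.choose k : ℕ) : R) ^ 2 * z ^ k
      + ((p.choose p : ℕ) : R) ^ 2 * z ^ p) - (1 + z ^ p + p ^ 2 * L2 ι z)
      = ∑ k ∈ Ico 1 p, ι (((p.choose k : ℕ) : ℤ_[p]) ^ 2 - p ^ 2 * v p k ^ 2) * z ^ k := by
    unfold L2
    rw [mul_sum]
    have : ∑ k ∈ Ico 1 p, ι (((p.choose k : ℕ) : ℤ_[p]) ^ 2 - p ^ 2 * v p k ^ 2) * z ^ k
        = ∑ k ∈ Ico 1 p, ((p.choose k : ℕ) : R) ^ 2 * z ^ k - ∑ k ∈ Ico 1 p, (p : R) ^ 2 * (ι (v p k ^ 2) * z ^ k) := by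
      rw [← sum_sub_distrib]
      refine sum_congr rfl fun k _ => ?_
      simp only [map_sub, map_mul, map_pow, map_natCast]
      ring
    rw [this, Nat.choose_zero_right, Nat.choose_self]
    simp
    ring
  rw [h3]
  apply dvd_sum
  intro k hk
  obtain ⟨c, hc⟩ := choose_p_sq_mod hk
  rw [hc]
  exact ⟨ι c * z ^ k, by simp only [map_mul, map_pow, map_natCast]; ring⟩

theorem abel (P : ℕ → R) (z : R) (n : ℕ) :
    (z - 1) * ∑ k ∈ range (n + 1), P k * z ^ k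
      = P n * z ^ (n + 1) - P 0 - ∑ k ∈ Ico 1 (n + 1), (P k - P (k - 1)) * z ^ k := by
  induction n with
  | zero => simp; ring
  | succ n ih =>
    rw [sum_range_succ, mul_add, ih, sum_Ico_succ_top (show 1 ≤ n + 1 by omega), Nat.add_sub_cancel]
    rw [pow_succ z (n + 1)]
    ring

theorem sum_sq_pred_mod (z : R) :
    (p : R) ^ 3 ∣ (z - 1) * ∑ k ∈ range p, (((p - 1).choose k : ℕ) : R) ^ 2 * z ^ k
      - (z ^ p - 1 + 2 * (p * L1 ι z) - p ^ 2 * L2 ι z - 4 * (p ^ 2 * Y ι z)) := by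
  have hpos := hp.out.pos
  have h1 := abel (fun k => (((p - 1).choose k : ℕ) : R) ^ 2) z (p - 1)
  rw [show p - 1 + 1 = p by omega] at h1
  rw [h1, Nat.choose_self, Nat.choose_zero_right]
  have h2 : 2 * (p * L1 ι z) - p ^ 2 * L2 ι z - 4 * (p ^ 2 * Y ι z)
      = -∑ k ∈ Ico 1 p, ι (-(2 * (p * v p k)) + p ^ 2 * v p k ^ 2 + 4 * (p ^ 2 * (v p k * h p k))) * z ^ k := by
    unfold L1 L2 Y
    rw [mul_sum, mul_sum, mul_sum, mul_sum, mul_sum, ← sum_sub_distrib, ← sum_sub_distrib, ← sum_neg_distrib]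
    refine sum_congr rfl fun k _ => ?_
    simp only [map_add, map_neg, map_mul, map_pow, map_natCast, map_ofNat]
    ring
  have h3 : (((1 : ℕ) : R) ^ 2 * z ^ p - ((1 : ℕ) : R) ^ 2
      - ∑ k ∈ Ico 1 p, ((((p - 1).choose k : ℕ) : R) ^ 2 - (((p - 1).choose (k - 1) : ℕ) : R) ^ 2) * z ^ k)
      - (z ^ p - 1 + 2 * (p * L1 ι z) - p ^ 2 * L2 ι z - 4 * (p ^ 2 * Y ι z))
      = -∑ k ∈ Ico 1 p, ι ((((p - 1).choose k : ℕ) : ℤ_[p]) ^ 2 - (((p - 1).choose (k - 1) : ℕ) : ℤ_[p]) ^ 2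
        - (-(2 * (p * v p k)) + p ^ 2 * v p k ^ 2 + 4 * (p ^ 2 * (v p k * h p k)))) * z ^ k := by
    have h4 : ∑ k ∈ Ico 1 p, ι ((((p - 1).choose k : ℕ) : ℤ_[p]) ^ 2 - (((p - 1).choose (k - 1) : ℕ) : ℤ_[p]) ^ 2
        - (-(2 * (p * v p k)) + p ^ 2 * v p k ^ 2 + 4 * (p ^ 2 * (v p k * h p k)))) * z ^ k
        = ∑ k ∈ Ico 1 p, ((((p - 1).choose k : ℕ) : R) ^ 2 - (((p - 1).choose (k - 1) : ℕ) : R) ^ 2) * z ^ k
          - ∑ k ∈ Ico 1 p, ι (-(2 * (p * v p k)) + p ^ 2 * v p k ^ 2 + 4 * (p ^ 2 * (v p k * h p k))) * z ^ k := by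
      rw [← sum_sub_distrib]
      refine sum_congr rfl fun k _ => ?_
      simp only [map_sub, map_pow, map_natCast]
      ring
    rw [h4]
    push_cast
    linear_combination -h2
  rw [h3, dvd_neg]
  apply dvd_sum
  intro k hk
  obtain ⟨c, hc⟩ := choose_pred_sq_mod hk
  rw [hc]
  exact ⟨ι c * z ^ k, by simp only [map_mul, map_pow, map_natCast]; ring⟩

end alg

end Pool.Agent.Q33.Zeta
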