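import Pool.Agent.Q33.Tri.Basic

/-! `T_k(b,c) M_k(b,c)` sums in closed form, and `T_n` at quadratic irrationalities. -/

namespace Pool.Agent.Q33.Zeta

open Finset Pool.Agent.Q33.Tri

/-- Catalan numbers, as integers: `C(2j,j)/(j+1)` -/
def cat (j : ℕ) : ℤ := ((2 * j).choose j / (j + 1) : ℕ)

theorem cat_mul (j : ℕ) : ((j : ℤ) + 1) * cat j = ((2 * j).choose j : ℤ) := by
  unfold cat
  have h : (j + 1) ∣ (2 * j).choose j := by
    have := Nat.succ_dvd_centralBinom j
    rw [Nat.centralBinom_eq_two_mul_choose] at this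
    exact this
  exact_mod_cast Nat.mul_div_cancel' h

/-- `M_n(b,c) = ∑_j C(n,2j) C_j b^(n-2j) c^j` -/
def M (b c : ℤ) (n : ℕ) : ℤ := ∑ j ∈ range (n / 2 + 1), (n.choose (2 * j) : ℤ) * cat j * b ^ (n - 2 * j) * c ^ j

theorem M_eq (b c : ℤ) {n N : ℕ} (h : n / 2 + 1 ≤ N) :
    M b c n = ∑ j ∈ range N, (n.choose (2 * j) : ℤ) * cat j * b ^ (n - 2 * j) * c ^ j := by
  unfold M
  apply Finset.sum_subset (Finset.range_subset_range.2 h)
  intro j _ hj
  rw [Finset.mem_range, not_lt] at hj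
  rw [Nat.choose_eq_zero_of_lt (by omega)]
  simp

theorem four_cat (j : ℕ) : 4 * ((2 * j).choose j : ℤ) - ((2 * (j + 1)).choose (j + 1) : ℤ) = 2 * cat j := by
  have h1 := cat_mul j
  have a3 := Nat.succ_mul_centralBinom_succ j
  rw [Nat.centralBinom_eq_two_mul_choose, Nat.centralBinom_eq_two_mul_choose] at a3
  have b3 : ((j : ℤ) + 1) * ((2 * (j + 1)).choose (j + 1) : ℤ)
      = 2 * (2 * j + 1) * ((2 * j).choose j : ℤ) := by
    exact_mod_cast a3
  have hj : ((j : ℤ) + 1) ≠ 0 := by positivity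
  apply mul_left_cancel₀ hj
  linear_combination -b3 - 2 * h1

/-- second difference of `C(n,2j+2)` -/
theorem second_diff (n j : ℕ) : ((n + 2).choose (2 * (j + 1)) : ℤ) - 2 * ((n + 1).choose (2 * (j + 1)) : ℤ)
    + (n.choose (2 * (j + 1)) : ℤ) = (n.choose (2 * j) : ℤ) := by
  have h1 := Nat.choose_succ_succ (n + 1) (2 * j + 1)
  have h2 := Nat.choose_succ_succ n (2 * j + 1)
  have h3 := Nat.choose_succ_succ n (2 * j)
  simp only [Nat.succ_eq_add_one] at h1 h2 h3
  rw [show n + 1 + 1 = n + 2 by ring, show 2 * j + 1 + 1 = 2 * (j + 1) by ring] at h1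
  rw [show 2 * j + 1 + 1 = 2 * (j + 1) by ring] at h2
  rw [h1, h2, h3]
  push_cast
  ring

theorem two_c_M (b c : ℤ) (n : ℕ) :
    2 * c * M b c n = 2 * b * T b c (n + 1) - (b ^ 2 - 4 * c) * T b c n - T b c (n + 2) := by
  have e1 : ∀ j, t (n + 1) j * b ^ (n + 1 - 2 * j) * c ^ j * b = t (n + 1) j * b ^ (n + 2 - 2 * j) * c ^ j := by
    intro j
    rcases Nat.lt_or_ge (n + 1) (2 * j) with h | h
    · rw [t_eq_zero h]
      simp
    · rw [show n + 2 - 2 * j = (n + 1 - 2 * j) + 1 by omega, pow_succ]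
      ring
  have e2 : ∀ j, t n j * b ^ (n - 2 * j) * c ^ j * b ^ 2 = t n j * b ^ (n + 2 - 2 * j) * c ^ j := by
    intro j
    rcases Nat.lt_or_ge n (2 * j) with h | h
    · rw [t_eq_zero h]
      simp
    · rw [show n + 2 - 2 * j = (n - 2 * j) + 2 by omega, pow_add]
      ring
  have s1 : 2 * b * T b c (n + 1) - b ^ 2 * T b c n - T b c (n + 2)
      = ∑ j ∈ range (n + 3), (2 * t (n + 1) j - t n j - t (n + 2) j) * b ^ (n + 2 - 2 * j) * c ^ j := by
    rw [T_eq b c (show (n + 1) / 2 + 1 ≤ n + 3 by omega), T_eq b c (show n / 2 + 1 ≤ n + 3 by omega),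
      T_eq b c (show (n + 2) / 2 + 1 ≤ n + 3 by omega), mul_sum, mul_sum, ← sum_sub_distrib, ← sum_sub_distrib]
    refine sum_congr rfl fun j _ => ?_
    linear_combination 2 * e1 j - e2 j
  have s2 : ∑ j ∈ range (n + 3), (2 * t (n + 1) j - t n j - t (n + 2) j) * b ^ (n + 2 - 2 * j) * c ^ j
      = -∑ j ∈ range (n + 2), (n.choose (2 * j) : ℤ) * ((2 * (j + 1)).choose (j + 1) : ℤ) * b ^ (n - 2 * j) * c ^ (j + 1) := by
    rw [sum_range_succ' _ (n + 2)]
    have : (2 * t (n + 1) 0 - t n 0 - t (n + 2) 0) * b ^ (n + 2 - 2 * 0) * c ^ 0 = 0 := by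
      rw [t_zero, t_zero, t_zero]
      ring
    rw [this, add_zero, ← sum_neg_distrib]
    refine sum_congr rfl fun j _ => ?_
    rw [show n + 2 - 2 * (j + 1) = n - 2 * j by omega]
    have := second_diff n j
    unfold t
    linear_combination (-((2 * (j + 1)).choose (j + 1) : ℤ) * b ^ (n - 2 * j) * c ^ (j + 1)) * this
  have s3 : 4 * c * T b c n = ∑ j ∈ range (n + 2), (n.choose (2 * j) : ℤ) * (4 * ((2 * j).choose j : ℤ)) * b ^ (n - 2 * j) * c ^ (j + 1) := by
    rw [T_eq b c (show n / 2 + 1 ≤ n + 2 by omega), mul_sum]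
    refine sum_congr rfl fun j _ => ?_
    unfold t
    rw [pow_succ]
    ring
  have s4 : 2 * b * T b c (n + 1) - (b ^ 2 - 4 * c) * T b c n - T b c (n + 2)
      = (2 * b * T b c (n + 1) - b ^ 2 * T b c n - T b c (n + 2)) + 4 * c * T b c n := by ring
  rw [s4, s1, s2, s3, M_eq b c (show n / 2 + 1 ≤ n + 2 by omega), mul_sum, ← sum_neg_distrib, ← sum_add_distrib]
  refine sum_congr rfl fun j _ => ?_
  have := four_cat j
  rw [pow_succ]
  linear_combination (-(n.choose (2 * j) : ℤ) * b ^ (n - 2 * j) * c ^ j * c) * this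

/-- the sum `∑_{k<n} d^(n-1-k) T_k M_k`, `d = b^2 - 4c` -/
def K (b c : ℤ) (n : ℕ) : ℤ := ∑ k ∈ range n, (b ^ 2 - 4 * c) ^ (n - 1 - k) * (T b c k * M b c k)

theorem K_succ (b c : ℤ) (n : ℕ) : K b c (n + 1) = (b ^ 2 - 4 * c) * K b c n + T b c n * M b c n := by
  unfold K
  rw [sum_range_succ, mul_sum]
  congr 1
  · refine sum_congr rfl fun k hk => ?_
    rw [mem_range] at hk
    rw [show n + 1 - 1 - k = (n - 1 - k) + 1 by omega, pow_succ]
    ring
  · rw [show n + 1 - 1 - n = 0 by omega]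
    simp

theorem K_closed (b c : ℤ) (n : ℕ) :
    2 * c * K b c n = n * (T b c (n - 1) * T b c (n + 1) - T b c n ^ 2) := by
  induction n with
  | zero => simp [K]
  | succ n ih =>
    rw [K_succ, Nat.add_sub_cancel]
    have hr := T_rec' b c n
    have hr2 := T_rec b c n
    have hM := two_c_M b c n
    rw [show n + 1 + 1 = n + 2 by ring]
    push_cast
    linear_combination (b ^ 2 - 4 * c) * ih + T b c n * hM + T b c (n + 1) * hr - T b c n * hr2

section ring
variable {R : Type*} [CommRing R]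

theorem prod_choose (n k j : ℕ) (hj : j ≤ k) (hk : k ≤ n) :
    n.choose (2 * j) * (2 * j).choose j * (n - 2 * j).choose (k - j)
      = n.choose k * (k.choose j * (n - k).choose j) := by
  have h1 : n.choose (2 * j) * (2 * j).choose j = n.choose j * (n - j).choose j := by
    rw [Nat.choose_mul (by omega), show 2 * j - j = j by omega]
  have h2 : n.choose k * k.choose j = n.choose j * (n - j).choose (k - j) := Nat.choose_mul hj
  have h3 : (n - j).choose k * k.choose j = (n - j).choose j * (n - j - j).choose (k - j) := Nat.choose_mul hj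
  have h4 : (n - j).choose k * k.choose (k - j) = (n - j).choose (k - j) * (n - j - (k - j)).choose (k - (k - j)) :=
    Nat.choose_mul (by omega)
  rw [Nat.choose_symm hj, show n - j - (k - j) = n - k by omega, show k - (k - j) = j by omega] at h4
  rw [show n - j - j = n - 2 * j by omega] at h3
  rw [h1, mul_assoc, ← h3, h4, ← mul_assoc, ← h2]
  ring

theorem choose_sq_eq (n k : ℕ) (hk : k ≤ n) :
    (n.choose k) ^ 2 = ∑ j ∈ range (k + 1), n.choose (2 * j) * (2 * j).choose j * (n - 2 * j).choose (k - j) := by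
  have h1 : n.choose k = ∑ j ∈ range (k + 1), k.choose j * (n - k).choose j := by
    conv_lhs => rw [show n = k + (n - k) by omega]
    rw [Nat.add_choose_eq, Finset.Nat.sum_antidiagonal_eq_sum_range_succ (fun x y => k.choose x * (n - k).choose y),
      ← sum_range_reflect]
    refine sum_congr rfl fun j hj => ?_
    rw [mem_range] at hj
    rw [show k + 1 - 1 - j = k - j by omega, Nat.choose_symm (by omega), show k - (k - j) = j by omega]
  conv_lhs => rw [sq, h1, mul_sum]
  conv_lhs => rw [← h1]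
  refine sum_congr rfl fun j hj => ?_
  rw [mem_range] at hj
  rw [prod_choose n k j (by omega) hk]

theorem sum_sq_eq (n : ℕ) (x : R) :
    ∑ k ∈ range (n + 1), ((n.choose k : ℕ) : R) ^ 2 * x ^ k
      = ∑ j ∈ range (n + 1), ((n.choose (2 * j) : ℕ) : R) * (((2 * j).choose j : ℕ) : R) * x ^ j * (1 + x) ^ (n - 2 * j) := by
  have h1 : ∀ k ∈ range (n + 1), ((n.choose k : ℕ) : R) ^ 2 * x ^ k
      = ∑ j ∈ range (k + 1), ((n.choose (2 * j) : ℕ) : R) * (((2 * j).choose j : ℕ) : R)
        * (((n - 2 * j).choose (k - j) : ℕ) : R) * x ^ (j + (k - j)) := by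
    intro k hk
    rw [mem_range] at hk
    have := choose_sq_eq n k (by omega)
    have h2 : ((n.choose k : ℕ) : R) ^ 2 = ∑ j ∈ range (k + 1), ((n.choose (2 * j) : ℕ) : R) * (((2 * j).choose j : ℕ) : R)
        * (((n - 2 * j).choose (k - j) : ℕ) : R) := by
      exact_mod_cast congrArg (fun n : ℕ => (n : R)) this
    rw [h2, sum_mul]
    refine sum_congr rfl fun j hj => ?_
    rw [mem_range] at hj
    rw [show j + (k - j) = k by omega]
  rw [sum_congr rfl h1, sum_range_diag_flip (n + 1) (fun j i => ((n.choose (2 * j) : ℕ) : R) * (((2 * j).choose j : ℕ) : R)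
        * (((n - 2 * j).choose i : ℕ) : R) * x ^ (j + i))]
  refine sum_congr rfl fun j hj => ?_
  rw [mem_range] at hj
  rcases Nat.lt_or_ge n (2 * j) with h | h
  · rw [Nat.choose_eq_zero_of_lt h]
    simp
  · rw [show (1 + x) = x + 1 by ring, add_pow, mul_sum]
    symm
    have hsub : range (n - 2 * j + 1) ⊆ range (n + 1 - j) := range_subset_range.2 (by omega)
    rw [← sum_subset hsub (fun i _ hi => by
      rw [mem_range, not_lt] at hi
      rw [Nat.choose_eq_zero_of_lt (show n - 2 * j < i by omega)]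
      simp)]
    refine sum_congr rfl fun i _ => ?_
    rw [one_pow, pow_add]
    ring

/-- `T_n(b,c) = β^n ∑ C(n,k)^2 ζ^k` if `b = β (1+ζ)`, `c = β^2 ζ` -/
theorem T_zeta (b c : ℤ) (β ζ : R) (hb : (b : R) = β * (1 + ζ)) (hc : (c : R) = β ^ 2 * ζ) (n : ℕ) :
    ((T b c n : ℤ) : R) = β ^ n * ∑ k ∈ range (n + 1), ((n.choose k : ℕ) : R) ^ 2 * ζ ^ k := by
  rw [sum_sq_eq, T_eq b c (show n / 2 + 1 ≤ n + 1 by omega), mul_sum]
  push_cast
  refine sum_congr rfl fun j hj => ?_
  rcases Nat.lt_or_ge n (2 * j) with h | h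
  · unfold t
    rw [Nat.choose_eq_zero_of_lt h]
    simp
  · unfold t
    rw [hb, hc]
    push_cast
    rw [mul_pow, mul_pow, ← pow_mul]
    have : β ^ n = β ^ (n - 2 * j) * β ^ (2 * j) := by
      rw [← pow_add]
      congr 1
      omega
    rw [this]
    ring

end ring

end Pool.Agent.Q33.Zeta
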